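import Mathlib
import Pool.Agent.H379R3.Reg
import Pool.Agent.Y808.DR.Stm2

/-!
# Part REG of project DR: a criterion for regularity of a quotient of a regular local ring
-/

set_option autoImplicit false

namespace Pool.Agent.Y891.DR

open IsLocalRing Pool.Agent.Y808.DR Pool.Agent.H379R3

universe u

theorem reg_aux (d : ℕ) : ∀ (A : Type u) [CommRing A] [IsRegularLocalRing A] (K : Ideal A),
    ringKrullDim A = (d : ℕ) → K ≠ ⊤ → K ⊓ maximalIdeal A ^ 2 ≤ maximalIdeal A * K →
    IsRegularLocalRing (A ⧸ K) := by
  induction d with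
  | zero =>
    intro A _ _ K h hK _
    have hKm : K ≤ maximalIdeal A := IsLocalRing.le_maximalIdeal hK
    have hK0 : K = ⊥ := by
      rw [dim_zero_maximalIdeal_eq_bot h] at hKm
      exact le_bot_iff.1 hKm
    subst hK0
    exact IsRegularLocalRing.of_ringEquiv (RingEquiv.quotientBot A).symm
  | succ d ih =>
    intro A _ _ K h hK hKK
    have hKm : K ≤ maximalIdeal A := IsLocalRing.le_maximalIdeal hK
    by_cases hK2 : K ≤ maximalIdeal A ^ 2
    · have hK0 : K = ⊥ := by
        apply Submodule.eq_bot_of_le_smul_of_le_jacobson_bot (maximalIdeal A) K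
          K.fg_of_isNoetherianRing
        · rw [smul_eq_mul]
          exact le_trans (le_inf le_rfl hK2) hKK
        · exact IsLocalRing.maximalIdeal_le_jacobson _
      subst hK0
      exact IsRegularLocalRing.of_ringEquiv (RingEquiv.quotientBot A).symm
    · obtain ⟨f, hfK, hf2⟩ := Set.not_subset.1 hK2
      obtain ⟨hreg, hdim⟩ := regular_quotient f (hKm hfK) hf2 d h
      have hfle : Ideal.span {f} ≤ K := by
        rw [Ideal.span_singleton_le_iff_mem]; exact hfK
      have e := DoubleQuot.quotQuotEquivQuotOfLE hfle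
      have hK1 : K.map (Ideal.Quotient.mk (Ideal.span {f})) ≠ ⊤ := by
        intro htop
        have h2 := congrArg (Ideal.comap (Ideal.Quotient.mk (Ideal.span {f}))) htop
        rw [Ideal.comap_map_of_surjective _ Ideal.Quotient.mk_surjective, Ideal.comap_top,
          ← RingHom.ker_eq_comap_bot, Ideal.mk_ker, sup_eq_left.2 hfle] at h2
        exact hK h2
      have hKK1 : K.map (Ideal.Quotient.mk (Ideal.span {f})) ⊓
          maximalIdeal (A ⧸ Ideal.span {f}) ^ 2 ≤
          maximalIdeal (A ⧸ Ideal.span {f}) * K.map (Ideal.Quotient.mk (Ideal.span {f})) := by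
        rw [← map_mk_maximalIdeal, ← Ideal.map_pow, ← Ideal.map_mul]
        rintro w ⟨hw1, hw2⟩
        obtain ⟨x, hx, rfl⟩ := (Ideal.mem_map_iff_of_surjective _
          Ideal.Quotient.mk_surjective).1 hw1
        obtain ⟨y, hy, hyx⟩ := (Ideal.mem_map_iff_of_surjective _
          Ideal.Quotient.mk_surjective).1 hw2
        rw [← hyx]
        apply Ideal.mem_map_of_mem
        apply hKK
        refine ⟨?_, hy⟩
        have h3 : y - x ∈ Ideal.span {f} := Ideal.Quotient.eq.1 hyx
        have h4 : y = x + (y - x) := by ring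
        rw [h4]
        exact Ideal.add_mem _ hx (hfle h3)
      have hres := ih (A ⧸ Ideal.span {f}) (K.map (Ideal.Quotient.mk (Ideal.span {f}))) hdim
        hK1 hKK1
      exact IsRegularLocalRing.of_ringEquiv e

theorem t_REG : S_REG.{u} := by
  intro A _ _ K hK hKK
  obtain ⟨d, hd⟩ := exists_dim_eq (B := A)
  exact reg_aux d A K hd hK hKK

end Pool.Agent.Y891.DR
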